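import Mathlib
import Pool.Agent.H.MP_232e98_an.C

set_option autoImplicit false
open scoped ComplexConjugate ComplexOrder
open Matrix Metric Pool.Agent.H.MP_e3a8c8_an Pool.Agent.H.MP_72b8ed_an Pool.Agent.H.MP_232e98_an

namespace Pool.Agent.Results.MP_232e98_an.Minimum

/-- positive semidefinite functions -/
def IsKernel {X : Type*} (K : X → X → ℂ) : Prop := (Matrix.of K).PosSemidef

/-- complete Pick kernels without zeros -/
def CPKernel {X : Type*} (s : X → X → ℂ) : Prop :=
  IsKernel s ∧ (∀ z w, s z w ≠ 0) ∧ ∃ (δ : X → ℂ) (F : X → X → ℂ), (∀ x, δ x ≠ 0) ∧ IsKernel F ∧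
    (∀ x, (F x x).re < 1) ∧ ∀ z w, s z w = δ z * conj (δ w) / (1 - F z w)

/-- `s` is a certificate for `k` -/
def Cert {X : Type*} (k s : X → X → ℂ) : Prop :=
  CPKernel s ∧ ∃ h, IsKernel h ∧ ∀ z w, k z w = (1 - h z w) * s z w

/-- `s` is a minimum certificate for `k` -/
def MinCert {X : Type*} (k s : X → X → ℂ) : Prop :=
  Cert k s ∧ ∀ t, Cert k t → IsKernel fun z w => t z w / s z w

theorem result : MinCert
    (fun z w : ball (0 : ℂ) (1 / √2) => 1 / (1 - z * conj (w : ℂ)) ^ 2)
    (fun z w => 1 / (1 - 2 * (z * conj (w : ℂ)))) := by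
  have hr0 : (0 : ℝ) < 1 / √2 := by positivity
  have hr : (1 / √2 : ℝ) ^ 2 = 1 / 2 := by rw [div_pow, Real.sq_sqrt zero_le_two, one_pow]
  generalize (1 / √2 : ℝ) = r at hr0 hr
  have nt : ∀ z w : ball (0 : ℂ) r, ‖(z : ℂ) * conj (w : ℂ)‖ < 1 / 2 := fun z w => by
    rw [norm_mul, Complex.norm_conj, ← hr, sq]
    exact mul_lt_mul'' (mem_ball_zero_iff.1 z.2) (mem_ball_zero_iff.1 w.2) (norm_nonneg _)
      (norm_nonneg _)
  have nt2 : ∀ z w : ball (0 : ℂ) r, ‖2 * ((z : ℂ) * conj (w : ℂ))‖ < 1 := fun z w => by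
    rw [norm_mul, Complex.norm_two]
    linarith [nt z w]
  have n1 : ∀ z w : ball (0 : ℂ) r, 1 - (z : ℂ) * conj (w : ℂ) ≠ 0 := fun z w =>
    ne1 ((nt z w).trans (by norm_num))
  have n2 := fun z w => ne1 (nt2 z w)
  have hT := psd_dyad fun x : ball (0 : ℂ) r => (x : ℂ)
  have hT2 : (of fun z w : ball (0 : ℂ) r => 2 * ((z : ℂ) * conj (w : ℂ))).PosSemidef :=
    psd_real hT 2 zero_le_two
  have hG := psd_geom hT fun z w => (nt z w).trans (by norm_num)
  refine ⟨⟨⟨?_, fun z w => one_div_ne_zero (n2 z w), fun _ => 1, _, fun _ => one_ne_zero, hT2,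
    fun x => (Complex.re_le_norm _).trans_lt (nt2 x x), fun z w => by simp⟩,
    _, (hT.hadamard hG).hadamard (hT.hadamard hG), fun z w => ?_⟩, ?_⟩
  · simpa only [IsKernel, one_div, of_apply] using psd_geom hT2 nt2
  · have key : ∀ q : ℂ, 1 - q ≠ 0 → 1 - 2 * q ≠ 0 → 1 / (1 - q) ^ 2 =
        (1 - q * (1 - q)⁻¹ * (q * (1 - q)⁻¹)) * (1 / (1 - 2 * q)) := by
      intro q h1 h2
      rw [mul_one_div, eq_div_iff h2]
      field_simp
      ring
    exact key _ (n1 z w) (n2 z w)
  rintro t ⟨⟨ht, ht0, δ, F, hδ, hF, hF1, hs⟩, h, hh, hk⟩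
  let o : ball (0 : ℂ) r := ⟨0, mem_ball_self hr0⟩
  have a1 : ∀ z w, 1 - F z w ≠ 0 := fun z w e => ht0 z w (by rw [hs, e, div_zero])
  have a2 : ∀ z w, 1 - h z w ≠ 0 := fun z w e =>
    one_div_ne_zero (pow_ne_zero 2 (n1 z w)) ((hk z w).trans (by rw [e, zero_mul]))
  have cδ : ∀ z, conj (δ z) ≠ 0 := fun z => by simpa using hδ z
  have real : ∀ {M : ball (0 : ℂ) r → ball (0 : ℂ) r → ℂ}, IsKernel M → ∀ x,
      M x x = ((M x x).re : ℝ) ∧ 0 ≤ (M x x).re := fun hM x => by
    have := Complex.le_def.1 (hM.diag_nonneg (i := x))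
    exact ⟨Complex.ext rfl (by simpa using this.2.symm), this.1⟩
  have ho : (h o o).re ≤ 1 := by
    have e : (1 : ℂ) = (1 - h o o) * t o o := by simpa [o] using hk o o
    rw [(real hh o).1, (real ht o).1] at e
    have e' : (1 : ℝ) = (1 - (h o o).re) * (t o o).re := by exact_mod_cast e
    by_contra! hc
    nlinarith [(real ht o).2]
  have b : ∀ z w, 1 - h z w = (1 - F z w) / ((1 - z * conj (w : ℂ)) ^ 2 * (δ z * conj (δ w))) := by
    intro z w
    have := hk z w
    rw [hs] at this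
    have := a1 z w
    have := n1 z w
    have := hδ z
    have := cδ w
    field_simp at *
    linear_combination -this
  have hF' := hat hF o (hF1 o).le a1
  have hm := main hr0 hr hF' (fun x => ?_) ?_
  · have := (psd_real hm (1 - (F o o).re) (by linarith [hF1 o])).hadamard
      (psd_dyad fun z => δ z / (1 - F z o))
    refine (congrArg PosSemidef ?_).mp this
    ext z w
    have c1 := a1 z w
    have c2 := a1 z o
    have c3 := a1 o w
    have c4 := a1 o o
    have c5 := n2 z w
    have c6 : conj (F w o) = F o w := hF.1.apply o w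
    simp only [hadamard_apply, Matrix.smul_apply, of_apply, smul_eq_mul, hs, map_div₀, map_sub,
      map_one, c6, sub_sub_cancel, Complex.ofReal_sub, Complex.ofReal_one, ← (real hF o).1]
    field_simp
  · have c6 : F o x = conj (F x o) := (hF.1.apply o x).symm
    have c7 : (1 - F x o) * (1 - F o x) = (Complex.normSq (1 - F x o) : ℝ) := by
      rw [← Complex.mul_conj, c6]; simp
    simp only [of_apply, c7]
    rw [(real hF o).1, (real hF x).1]
    have : 0 < (1 - (F o o).re) * (1 - (F x x).re) / Complex.normSq (1 - F x o) :=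
      div_pos (mul_pos (by linarith [hF1 o]) (by linarith [hF1 x])) (Complex.normSq_pos.2 (a1 x o))
    have e : (1 : ℂ) - (1 - ((F o o).re : ℝ)) * (1 - ((F x x).re : ℝ)) /
        (Complex.normSq (1 - F x o) : ℝ) =
        ((1 - (1 - (F o o).re) * (1 - (F x x).re) / Complex.normSq (1 - F x o) : ℝ) : ℂ) := by
      push_cast; ring
    rw [e, Complex.ofReal_re]
    linarith
  · have := (hat hh o ho a2).add ((hT.hadamard hT).hadamard
      ((psd_real hG 2 zero_le_two).add (hG.hadamard hG)))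
    refine (congrArg PosSemidef ?_).mp this
    ext z w
    have c1 := a1 z w
    have c2 := a1 z o
    have c3 := a1 o w
    have c4 := a1 o o
    have c5 := n1 z w
    have c6 := hδ z
    have c7 := hδ o
    have c8 := cδ w
    have c9 := cδ o
    simp only [hadamard_apply, Matrix.add_apply, Matrix.smul_apply, of_apply, smul_eq_mul, b]
    have o0 : (o : ℂ) = 0 := rfl
    simp only [o0, map_zero, mul_zero, zero_mul, sub_zero, one_pow, one_mul, Complex.ofReal_ofNat]
    field_simp
    ring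

end Pool.Agent.Results.MP_232e98_an.Minimum
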